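import Pool.Agent.Run7.h197.W.Half

/-!
Integer points on the curves `T(x, y) = C P(x, y) ^ n`.
-/

set_option autoImplicit false

namespace Run7.h197.W

open NumberField Finset
open MvPolynomial (eval IsHomogeneous aeval rename)
open Run7.h197.ES (len len_nonneg one_le_len)

/-- **all integer points** -/
theorem all {T : MvPolynomial (Fin 2) ℤ} {e : ℕ} (hT : T.IsHomogeneous e) (hT0 : T ≠ 0)
    (he : 1 ≤ e) (L : Type) [Field L] [NumberField L] (s D : ℕ) :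
    ∃ κ : ℕ, ∀ (n : ℕ) (C₁ C₂ c₀ : ℤ) (d : ℕ) (Q P' : MvPolynomial (Fin 2) ℤ),
      C₁ ≠ 0 → C₂ ≠ 0 → 1 ≤ d → d ≤ D → Q.IsHomogeneous d → Q ≠ 0 → P'.totalDegree < d →
      SplitsOver L Q → Sep T Q → eval ![0, 0] P' = c₀ → c₀ ≠ 0 →
      (C₂ * c₀).natAbs.primeFactors.card ≤ s → ∀ R : ℝ,
      R = 2 + Real.log C₁.natAbs + Real.log (rad (C₂ * c₀)) +
        Real.log ((len Q + len P' : ℤ) : ℝ) → R ^ κ < n →
      ∀ x y : ℤ, eval ![x, y] T = C₁ * C₂ * (eval ![x, y] (Q + P')) ^ n →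
        ((∃ t : ℤ, eval ![t * x, t * y] (Q + P') ≠ eval ![0, 0] (Q + P')) →
          max |(x : ℝ)| |(y : ℝ)| ≤ Real.exp (R ^ κ)) ∧
        max |(x : ℝ)| |(y : ℝ)| ≤ |((C₁ * C₂ : ℤ) : ℝ)| * |(c₀ : ℝ)| ^ n * Real.exp (R ^ κ) := by
  obtain ⟨κ₁, h₁⟩ := half hT hT0 he L s D
  obtain ⟨κ₂, h₂⟩ := half (sw_hom hT) (sw_ne hT0) he L s D
  refine ⟨max κ₁ κ₂, ?_⟩
  intro n C₁ C₂ c₀ d Q P' hC₁ hC₂ hd hdD hQ hQ0 hP' hsplit hsep hc₀ h0 hs R hR hRn x y heq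
  have hu1 : 1 ≤ len Q + len P' := by
    have := one_le_len hQ0
    have := len_nonneg P'
    omega
  have l1 : 0 ≤ Real.log C₁.natAbs := Real.log_natCast_nonneg _
  have l2 : 0 ≤ Real.log (rad (C₂ * c₀)) := Real.log_natCast_nonneg _
  have l3 : 0 ≤ Real.log ((len Q + len P' : ℤ) : ℝ) := Real.log_nonneg (by exact_mod_cast hu1)
  have hR1 : 1 ≤ R := by rw [hR]; linarith
  have k1 : R ^ κ₁ ≤ R ^ max κ₁ κ₂ := pow_le_pow_right₀ hR1 (le_max_left _ _)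
  have k2 : R ^ κ₂ ≤ R ^ max κ₁ κ₂ := pow_le_pow_right₀ hR1 (le_max_right _ _)
  have hfac : 0 ≤ |((C₁ * C₂ : ℤ) : ℝ)| * |(c₀ : ℝ)| ^ n := by positivity
  rcases le_total |x| |y| with hxy | hxy
  · have hxyr : |(x : ℝ)| ≤ |(y : ℝ)| := by exact_mod_cast hxy
    rw [max_eq_right hxyr]
    obtain ⟨a1, a2⟩ := h₁ n C₁ C₂ c₀ d Q P' hC₁ hC₂ hd hdD hQ hQ0 hP' hsplit hsep hc₀ h0 hs R hR
      (lt_of_le_of_lt k1 hRn) x y hxy heq
    exact ⟨fun h => (a1 h).trans (Real.exp_le_exp.2 k1),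
      a2.trans (mul_le_mul_of_nonneg_left (Real.exp_le_exp.2 k1) hfac)⟩
  · have hxyr : |(y : ℝ)| ≤ |(x : ℝ)| := by exact_mod_cast hxy
    rw [max_eq_left hxyr]
    have hsum : sw Q + sw P' = sw (Q + P') := by
      unfold sw
      rw [map_add]
    obtain ⟨a1, a2⟩ := h₂ n C₁ C₂ c₀ d (sw Q) (sw P') hC₁ hC₂ hd hdD (sw_hom hQ) (sw_ne hQ0)
      (lt_of_le_of_lt (sw_deg P') hP') (sw_splits hsplit) (sw_sep hsep) (by rw [sw_eval]; exact hc₀)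
      h0 hs R (by rw [sw_len, sw_len]; exact hR) (lt_of_le_of_lt k2 hRn) y x hxy (by
        rw [hsum, sw_eval, sw_eval]
        exact heq)
    rw [hsum] at a1
    refine ⟨fun h => (a1 ?_).trans (Real.exp_le_exp.2 k2),
      a2.trans (mul_le_mul_of_nonneg_left (Real.exp_le_exp.2 k2) hfac)⟩
    obtain ⟨t, ht⟩ := h
    refine ⟨t, ?_⟩
    rw [sw_eval, sw_eval]
    exact ht

/-- **all integer points**, the values of `P` -/
theorem all_triv {T : MvPolynomial (Fin 2) ℤ} {e : ℕ} (hT : T.IsHomogeneous e) (hT0 : T ≠ 0)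
    (he : 1 ≤ e) (L : Type) [Field L] [NumberField L] (s D : ℕ) :
    ∃ κ : ℕ, ∀ (n : ℕ) (C₁ C₂ c₀ : ℤ) (d : ℕ) (Q P' : MvPolynomial (Fin 2) ℤ),
      C₁ ≠ 0 → C₂ ≠ 0 → 1 ≤ d → d ≤ D → Q.IsHomogeneous d → Q ≠ 0 → P'.totalDegree < d →
      SplitsOver L Q → Sep T Q → eval ![0, 0] P' = c₀ → c₀ ≠ 0 →
      (C₂ * c₀).natAbs.primeFactors.card ≤ s → ∀ R : ℝ,
      R = 2 + Real.log C₁.natAbs + Real.log (rad (C₂ * c₀)) +
        Real.log ((len Q + len P' : ℤ) : ℝ) → R ^ κ < n →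
      ∀ x y : ℤ, eval ![x, y] T = C₁ * C₂ * (eval ![x, y] (Q + P')) ^ n →
        (|eval ![x, y] (Q + P')| ≤ 1 ∧ max |(x : ℝ)| |(y : ℝ)| ≤ Real.exp (R ^ κ)) ∨
        ((∀ t : ℤ, eval ![t * x, t * y] (Q + P') = eval ![0, 0] (Q + P')) ∧
          max |(x : ℝ)| |(y : ℝ)| ≤
            |((C₁ * C₂ : ℤ) : ℝ)| * |(c₀ : ℝ)| ^ n * Real.exp (R ^ κ)) := by
  obtain ⟨κ₀, h⟩ := all hT hT0 he L s D
  have ht1 : 1 ≤ len T := one_le_len hT0
  have ht1r : (1 : ℝ) ≤ (len T : ℝ) := by exact_mod_cast ht1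
  obtain ⟨τ, hτ⟩ : ∃ τ : ℕ, Real.log (len T : ℝ) ≤ τ := ⟨_, Nat.le_ceil _⟩
  obtain ⟨κ₁, hκ₁⟩ := Run7.h197.V.absorb (2 * (τ + e)) κ₀
  refine ⟨max κ₀ κ₁, ?_⟩
  intro n C₁ C₂ c₀ d Q P' hC₁ hC₂ hd hdD hQ hQ0 hP' hsplit hsep hc₀ h0 hs R hR hRn x y heq
  have hu1 : 1 ≤ len Q + len P' := by
    have := one_le_len hQ0
    have := len_nonneg P'
    omega
  have l1 : 0 ≤ Real.log C₁.natAbs := Real.log_natCast_nonneg _
  have l2 : 0 ≤ Real.log (rad (C₂ * c₀)) := Real.log_natCast_nonneg _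
  have l3 : 0 ≤ Real.log ((len Q + len P' : ℤ) : ℝ) := Real.log_nonneg (by exact_mod_cast hu1)
  have hR2 : 2 ≤ R := by rw [hR]; linarith
  have hR1 : 1 ≤ R := by linarith
  have k1 : R ^ κ₀ ≤ R ^ max κ₀ κ₁ := pow_le_pow_right₀ hR1 (le_max_left _ _)
  have k2 : R ^ κ₁ ≤ R ^ max κ₀ κ₁ := pow_le_pow_right₀ hR1 (le_max_right _ _)
  obtain ⟨a1, a2⟩ := h n C₁ C₂ c₀ d Q P' hC₁ hC₂ hd hdD hQ hQ0 hP' hsplit hsep hc₀ h0 hs R hR
    (lt_of_le_of_lt k1 hRn) x y heq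
  by_cases hnc : ∃ t : ℤ, eval ![t * x, t * y] (Q + P') ≠ eval ![0, 0] (Q + P')
  · left
    have hsize := a1 hnc
    refine ⟨?_, hsize.trans (Real.exp_le_exp.2 k1)⟩
    by_contra hcon
    push Not at hcon
    obtain ⟨z, hz⟩ : ∃ z, z = eval ![x, y] (Q + P') := ⟨_, rfl⟩
    rw [← hz] at hcon heq
    have hC : C₁ * C₂ ≠ 0 := mul_ne_zero hC₁ hC₂
    obtain ⟨m, hm⟩ : ∃ m : ℤ, m = max |x| |y| := ⟨_, rfl⟩
    have hm1 : 1 ≤ m := by
      by_contra h1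
      have h2 : |x| ≤ m := by rw [hm]; exact le_max_left _ _
      have h3 : |y| ≤ m := by rw [hm]; exact le_max_right _ _
      have h4 : x = 0 := abs_eq_zero.1 (le_antisymm (by omega) (abs_nonneg _))
      have h5 : y = 0 := abs_eq_zero.1 (le_antisymm (by omega) (abs_nonneg _))
      obtain ⟨t, ht⟩ := hnc
      apply ht
      rw [h4, h5, mul_zero]
    have hb := Run7.h197.ES.eval_bound T x y m hm1 (by rw [hm]; exact le_max_left _ _)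
      (by rw [hm]; exact le_max_right _ _) hT.totalDegree_le
    have h2 : 2 ^ n ≤ len T * m ^ e := by
      calc (2 : ℤ) ^ n ≤ |z| ^ n := pow_le_pow_left₀ (by norm_num) (by omega) n
        _ ≤ |C₁ * C₂| * |z| ^ n := le_mul_of_one_le_left (by positivity) (Int.one_le_abs hC)
        _ = |eval ![x, y] T| := by rw [heq, abs_mul (C₁ * C₂), abs_pow]
        _ ≤ len T * m ^ e := hb
    have hmr : (m : ℝ) ≤ Real.exp (R ^ κ₀) := by
      rw [hm]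
      push_cast
      exact hsize
    have hm0 : (0 : ℝ) < m := by exact_mod_cast (by omega : 0 < m)
    have h3 : (2 : ℝ) ^ n ≤ (len T : ℝ) * (m : ℝ) ^ e := by exact_mod_cast h2
    have h4 := Real.log_le_log (by positivity) h3
    rw [Real.log_mul (by positivity) (by positivity), Real.log_pow, Real.log_pow] at h4
    have h5 : Real.log (m : ℝ) ≤ R ^ κ₀ := (Real.log_le_iff_le_exp hm0).2 hmr
    have h6 : (1 / 2 : ℝ) ≤ Real.log 2 := by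
      have := Real.log_two_gt_d9
      linarith
    have h7 : (n : ℝ) * (1 / 2) ≤ n * Real.log 2 := mul_le_mul_of_nonneg_left h6 (Nat.cast_nonneg _)
    have h8 : (e : ℝ) * Real.log (m : ℝ) ≤ e * R ^ κ₀ := mul_le_mul_of_nonneg_left h5 (Nat.cast_nonneg _)
    have h9 := hκ₁ R hR2
    push_cast at h9
    have h10 : (τ : ℝ) ≤ τ * R ^ κ₀ := le_mul_of_one_le_right (Nat.cast_nonneg _) (one_le_pow₀ hR1)
    have h11 : (n : ℝ) ≤ 2 * (τ + e) * R ^ κ₀ := by nlinarith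
    linarith
  · right
    push Not at hnc
    exact ⟨hnc, a2.trans (mul_le_mul_of_nonneg_left (Real.exp_le_exp.2 k1) (by positivity))⟩

end Run7.h197.W
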