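import Pool.Agent.Run7.h197.W.NearCase

/-!
Integer points on the curves `T(x, y) = C P(x, y) ^ n`.
-/

set_option autoImplicit false

namespace Run7.h197.W

open NumberField IsDedekindDomain Finset Pool.Agent.H691R3 Pool.Agent.Y673.Loc Pool.Agent.Y673.Cnt
open Height Pool.Agent.Y673.Loc.ZV Run7.h197.V
open MvPolynomial (eval IsHomogeneous aeval rename)
open Run7.h197.ES (len len_nonneg one_le_len eval_bound restr restr_eval restr_coeff int_root lines)
open Run7.h197.FMS (adv_zero)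

/-- the form is a product of linear forms over `L` -/
def SplitsOver (L : Type) [Field L] (Q : MvPolynomial (Fin 2) ℤ) : Prop :=
  ∃ (m : ℕ) (α β : Fin m → L), ∀ x y : L, aeval ![x, y] Q = ∏ i, (α i * x + β i * y)

lemma splits_deh {L : Type} [Field L] [CharZero L] {Q : MvPolynomial (Fin 2) ℤ}
    (h : SplitsOver L Q) : ((deh Q).map (Int.castRingHom L)).Splits := by
  obtain ⟨m, α, β, h⟩ := h
  have e : (deh Q).map (Int.castRingHom L) =
      ∏ i, (Polynomial.C (α i) * Polynomial.X + Polynomial.C (β i)) := by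
    apply Polynomial.funext
    intro t
    rw [deh_eval, Polynomial.eval_prod]
    have h1 := h t 1
    refine Eq.trans h1 (Finset.prod_congr rfl fun i _ => ?_)
    simp
  rw [e]
  apply Polynomial.Splits.prod
  intro i _
  exact Polynomial.Splits.of_natDegree_le_one (Polynomial.natDegree_linear_le)

/-- the swapped polynomial -/
noncomputable def sw (P : MvPolynomial (Fin 2) ℤ) : MvPolynomial (Fin 2) ℤ :=
  rename (Equiv.swap (0 : Fin 2) 1) P

lemma sw_eval (P : MvPolynomial (Fin 2) ℤ) (x y : ℤ) : eval ![x, y] (sw P) = eval ![y, x] P := by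
  unfold sw
  rw [MvPolynomial.eval_rename]
  congr 2
  funext i
  fin_cases i <;> rfl

lemma sw_aeval {k : Type} [CommRing k] (P : MvPolynomial (Fin 2) ℤ) (z : Fin 2 → k) :
    aeval z (sw P) = aeval ![z 1, z 0] P := by
  unfold sw
  rw [MvPolynomial.aeval_rename]
  congr 2
  funext i
  fin_cases i <;> rfl

lemma sw_hom {P : MvPolynomial (Fin 2) ℤ} {e : ℕ} (h : P.IsHomogeneous e) :
    (sw P).IsHomogeneous e := h.rename_isHomogeneous

lemma sw_ne {P : MvPolynomial (Fin 2) ℤ} (h : P ≠ 0) : sw P ≠ 0 := by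
  intro h0
  exact h (MvPolynomial.rename_injective _ (Equiv.injective _) (by rw [← sw, h0, map_zero]))

lemma sw_deg (P : MvPolynomial (Fin 2) ℤ) : (sw P).totalDegree ≤ P.totalDegree :=
  MvPolynomial.totalDegree_rename_le _ P

lemma sw_len (P : MvPolynomial (Fin 2) ℤ) : len (sw P) = len P := by
  classical
  unfold len sw
  rw [MvPolynomial.support_rename_of_injective (Equiv.injective _), Finset.sum_image]
  · apply Finset.sum_congr rfl
    intro d _
    rw [MvPolynomial.coeff_rename_mapDomain _ (Equiv.injective _)]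
  · intro a _ b _ hab
    exact Finsupp.mapDomain_injective (Equiv.injective _) hab

lemma sw_sep {T Q : MvPolynomial (Fin 2) ℤ} (h : Sep T Q) : Sep (sw T) (sw Q) := by
  intro z hz hQ
  rw [sw_aeval] at hQ
  obtain ⟨z₁, z₂, a1, a2, a3, a4, a5⟩ := h ![z 1, z 0] (by
    intro h0
    apply hz
    funext i
    fin_cases i
    · exact congrFun h0 1
    · exact congrFun h0 0) hQ
  simp only [Matrix.cons_val_zero, Matrix.cons_val_one] at a3 a4
  have hv : ∀ w : Fin 2 → ℂ, ![w 0, w 1] = w := by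
    intro w
    funext i
    fin_cases i <;> rfl
  refine ⟨![z₁ 1, z₁ 0], ![z₂ 1, z₂ 0], ?_, ?_, ?_, ?_, ?_⟩
  · rw [sw_aeval]
    simp only [Matrix.cons_val_zero, Matrix.cons_val_one]
    rw [hv, a1]
  · rw [sw_aeval]
    simp only [Matrix.cons_val_zero, Matrix.cons_val_one]
    rw [hv, a2]
  · simp only [Matrix.cons_val_zero, Matrix.cons_val_one]
    exact a3.symm
  · simp only [Matrix.cons_val_zero, Matrix.cons_val_one]
    exact a4.symm
  · simp only [Matrix.cons_val_zero, Matrix.cons_val_one]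
    exact a5.symm

lemma sw_splits {L : Type} [Field L] {Q : MvPolynomial (Fin 2) ℤ} (h : SplitsOver L Q) :
    SplitsOver L (sw Q) := by
  obtain ⟨m, α, β, h⟩ := h
  refine ⟨m, β, α, fun x y => ?_⟩
  rw [sw_aeval]
  simp only [Matrix.cons_val_zero, Matrix.cons_val_one]
  rw [h]
  exact Finset.prod_congr rfl fun i _ => add_comm _ _

lemma len_add (P Q : MvPolynomial (Fin 2) ℤ) : len (P + Q) ≤ len P + len Q := by
  classical
  have key : ∀ (R : MvPolynomial (Fin 2) ℤ) (s : Finset (Fin 2 →₀ ℕ)), R.support ⊆ s →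
      len R = ∑ d ∈ s, |R.coeff d| := by
    intro R s hs
    apply Finset.sum_subset hs
    intro d _ hd
    rw [MvPolynomial.notMem_support_iff.1 hd, abs_zero]
  rw [key (P + Q) (P.support ∪ Q.support) MvPolynomial.support_add,
    key P (P.support ∪ Q.support) Finset.subset_union_left,
    key Q (P.support ∪ Q.support) Finset.subset_union_right, ← Finset.sum_add_distrib]
  apply Finset.sum_le_sum
  intro d _
  rw [MvPolynomial.coeff_add]
  exact abs_add_le _ _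

/-- growth of a polynomial -/
lemma growth (r : Polynomial ℤ) (hr : 1 ≤ r.natDegree) (B g : ℤ) (hB : ∀ i, |r.coeff i| ≤ B)
    (hg : 2 * B + 1 ≤ g) : g ≤ 2 * |r.eval g| := by
  have hB0 : 0 ≤ B := (abs_nonneg _).trans (hB 0)
  have hr0 : r ≠ 0 := by
    rintro rfl
    simp at hr
  have hlc : 1 ≤ |r.coeff r.natDegree| := Int.one_le_abs (Polynomial.leadingCoeff_ne_zero.2 hr0)
  have hg1 : 1 ≤ g := by omega
  have h1 := Polynomial.eval_eq_sum_range (p := r) g
  rw [Finset.sum_range_succ] at h1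
  have h3 : |∑ i ∈ range r.natDegree, r.coeff i * g ^ i| ≤ B * ∑ i ∈ range r.natDegree, g ^ i := by
    rw [Finset.mul_sum]
    refine (Finset.abs_sum_le_sum_abs _ _).trans (Finset.sum_le_sum fun i _ => ?_)
    rw [abs_mul, abs_pow, abs_of_nonneg (by omega : 0 ≤ g)]
    exact mul_le_mul_of_nonneg_right (hB i) (by positivity)
  have h4 : (∑ i ∈ range r.natDegree, g ^ i) * (g - 1) = g ^ r.natDegree - 1 := geom_sum_mul _ _
  have h5 : g ^ r.natDegree ≤ |r.coeff r.natDegree * g ^ r.natDegree| := by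
    rw [abs_mul, abs_pow, abs_of_nonneg (by omega : 0 ≤ g)]
    exact le_mul_of_one_le_left (by positivity) hlc
  have h7 : 0 ≤ ∑ i ∈ range r.natDegree, g ^ i := Finset.sum_nonneg fun i _ => by positivity
  have h8 : 2 * (B * ∑ i ∈ range r.natDegree, g ^ i) ≤ g ^ r.natDegree - 1 := by
    rw [← h4]
    nlinarith
  have h9 : |r.coeff r.natDegree * g ^ r.natDegree| ≤ |r.eval g| +
      |∑ i ∈ range r.natDegree, r.coeff i * g ^ i| := by
    have : r.coeff r.natDegree * g ^ r.natDegree = r.eval g +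
        -∑ i ∈ range r.natDegree, r.coeff i * g ^ i := by rw [h1]; ring
    rw [this]
    refine (abs_add_le _ _).trans ?_
    rw [abs_neg]
  have h10 : g ≤ g ^ r.natDegree := le_self_pow₀ hg1 (by omega)
  omega

/-- the size of the value at a point -/
lemma near_of_eq {T Q P' : MvPolynomial (Fin 2) ℤ} {e d : ℕ} (hT : T.IsHomogeneous e)
    (hQ : Q.IsHomogeneous d) (hd : 1 ≤ d) (hP' : P'.totalDegree < d) (hT0 : T ≠ 0) (n : ℕ)
    (hn : 1 ≤ n) (hne : 2 * e ≤ n) (Cc : ℤ) (hC : Cc ≠ 0) (x y g : ℤ) (hy : y ≠ 0) (hg : 1 ≤ g)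
    (hxy : |x| ≤ |y|)
    (heq : eval ![g * x, g * y] T = Cc * (eval ![g * x, g * y] (Q + P')) ^ n) (Λ : ℤ)
    (hΛ : len T + len P' ≤ Λ) :
    |eval ![x, y] Q| ^ 2 * |y| ≤ Λ ^ 2 * |y| ^ (2 * d) := by
  obtain ⟨z, hz⟩ : ∃ z, z = eval ![g * x, g * y] (Q + P') := ⟨_, rfl⟩
  rw [← hz] at heq
  have hY1 : 1 ≤ |g * y| := Int.one_le_abs (mul_ne_zero (by omega) hy)
  have hxY : |g * x| ≤ |g * y| := by
    rw [abs_mul, abs_mul]
    exact mul_le_mul_of_nonneg_left hxy (abs_nonneg _)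
  have ht1 : 1 ≤ len T := one_le_len hT0
  have hp0 : 0 ≤ len P' := len_nonneg _
  -- the real numbers
  obtain ⟨Y, hY⟩ : ∃ Y : ℝ, Y = |((g * y : ℤ) : ℝ)| := ⟨_, rfl⟩
  have hY1r : 1 ≤ Y := by
    rw [hY]
    exact_mod_cast hY1
  obtain ⟨t, ht⟩ : ∃ t : ℝ, t = (len T : ℝ) := ⟨_, rfl⟩
  have ht1r : 1 ≤ t := by
    rw [ht]
    exact_mod_cast ht1
  obtain ⟨p, hp⟩ : ∃ p : ℝ, p = (len P' : ℝ) := ⟨_, rfl⟩
  have hp0r : 0 ≤ p := by
    rw [hp]
    exact_mod_cast hp0
  have h1 : |(z : ℝ)| ^ n ≤ t * Y ^ e := by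
    have h2 := eval_bound T (g * x) (g * y) |g * y| hY1 hxY le_rfl hT.totalDegree_le
    have h3 : |z| ^ n ≤ len T * |g * y| ^ e := by
      refine le_trans ?_ h2
      rw [heq, abs_mul, abs_pow]
      exact le_mul_of_one_le_left (by positivity) (Int.one_le_abs hC)
    rw [ht, hY]
    exact_mod_cast h3
  have h2 : |(z : ℝ)| ^ 2 ≤ t ^ 2 * Y := by
    by_contra hcon
    push Not at hcon
    have h3 : (t ^ 2 * Y) ^ n < (|(z : ℝ)| ^ 2) ^ n := pow_lt_pow_left₀ hcon (by positivity) (by omega)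
    have h4 : (|(z : ℝ)| ^ 2) ^ n ≤ (t * Y ^ e) ^ 2 := by
      rw [← pow_mul, mul_comm, pow_mul]
      exact pow_le_pow_left₀ (by positivity) h1 2
    have h5 : (t * Y ^ e) ^ 2 ≤ (t ^ 2 * Y) ^ n := by
      rw [mul_pow, mul_pow, ← pow_mul, ← pow_mul, mul_comm e 2]
      apply mul_le_mul _ (pow_le_pow_right₀ hY1r hne) (by positivity) (by positivity)
      exact pow_le_pow_right₀ ht1r (by omega)
    linarith
  obtain ⟨s, hs0, hs⟩ : ∃ s : ℝ, 0 ≤ s ∧ s ^ 2 = Y := ⟨Real.sqrt Y, Real.sqrt_nonneg _,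
    Real.sq_sqrt (by linarith)⟩
  have hs1 : 1 ≤ s := by
    by_contra hcon
    push Not at hcon
    have : s ^ 2 < 1 := pow_lt_one₀ hs0 hcon (by norm_num)
    linarith
  have h3 : |(z : ℝ)| ≤ t * s := by
    have h4 : |(z : ℝ)| ^ 2 ≤ (t * s) ^ 2 := by
      rw [mul_pow, hs]
      exact h2
    exact (pow_le_pow_iff_left₀ (abs_nonneg _) (by positivity) (by norm_num)).1 h4
  have h4 : |((eval ![g * x, g * y] P' : ℤ) : ℝ)| ≤ p * s ^ (2 * (d - 1)) := by
    have h5 := eval_bound P' (g * x) (g * y) |g * y| hY1 hxY le_rfl (show P'.totalDegree ≤ d - 1 by omega)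
    rw [pow_mul, hs, hp, hY]
    exact_mod_cast h5
  have h5 : |((eval ![g * x, g * y] Q : ℤ) : ℝ)| ≤ (t + p) * s ^ (2 * d - 1) := by
    have e1 : ((eval ![g * x, g * y] Q : ℤ) : ℝ) = (z : ℝ) + -((eval ![g * x, g * y] P' : ℤ) : ℝ) := by
      rw [hz, map_add]
      push_cast
      ring
    rw [e1]
    refine (abs_add_le _ _).trans ?_
    rw [abs_neg]
    have h6 : t * s ≤ t * s ^ (2 * d - 1) :=
      mul_le_mul_of_nonneg_left (le_self_pow₀ hs1 (by omega)) (by linarith)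
    have h7 : p * s ^ (2 * (d - 1)) ≤ p * s ^ (2 * d - 1) :=
      mul_le_mul_of_nonneg_left (pow_le_pow_right₀ hs1 (by omega)) hp0r
    calc |(z : ℝ)| + |((eval ![g * x, g * y] P' : ℤ) : ℝ)| ≤ t * s + p * s ^ (2 * (d - 1)) :=
          add_le_add h3 h4
      _ ≤ t * s ^ (2 * d - 1) + p * s ^ (2 * d - 1) := add_le_add h6 h7
      _ = _ := by ring
  have h6 : |((eval ![g * x, g * y] Q : ℤ) : ℝ)| ^ 2 * Y ≤ (t + p) ^ 2 * Y ^ (2 * d) := by
    calc |((eval ![g * x, g * y] Q : ℤ) : ℝ)| ^ 2 * Y ≤ ((t + p) * s ^ (2 * d - 1)) ^ 2 * Y :=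
          mul_le_mul_of_nonneg_right (pow_le_pow_left₀ (abs_nonneg _) h5 2) (by linarith)
      _ = (t + p) ^ 2 * Y ^ (2 * d) := by
          rw [mul_pow, ← pow_mul, mul_assoc]
          congr 1
          rw [← hs, ← pow_mul, ← pow_add]
          congr 1
          omega
  -- the primitive point
  have h7 : eval ![g * x, g * y] Q = g ^ d * eval ![x, y] Q := Run7.h197.ES.hom_eval hQ g x y
  have hgr : (1 : ℝ) ≤ g := by exact_mod_cast hg
  have hYg : Y = g * |(y : ℝ)| := by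
    rw [hY, Int.cast_mul, abs_mul, abs_of_nonneg (by linarith : (0 : ℝ) ≤ g)]
  have hy0 : 0 ≤ |(y : ℝ)| := abs_nonneg _
  have h8 : |((eval ![x, y] Q : ℤ) : ℝ)| ^ 2 * |(y : ℝ)| * (g : ℝ) ≤ (t + p) ^ 2 * |(y : ℝ)| ^ (2 * d) := by
    rw [h7, hYg, Int.cast_mul, Int.cast_pow, abs_mul, abs_pow, abs_of_nonneg (by linarith : (0 : ℝ) ≤ g),
      mul_pow, mul_pow, ← pow_mul, mul_comm d 2] at h6
    have hpos : (0 : ℝ) < (g : ℝ) ^ (2 * d) := by positivity
    have e1 : (g : ℝ) ^ (2 * d) * |((eval ![x, y] Q : ℤ) : ℝ)| ^ 2 * ((g : ℝ) * |(y : ℝ)|) =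
        (|((eval ![x, y] Q : ℤ) : ℝ)| ^ 2 * |(y : ℝ)| * (g : ℝ)) * (g : ℝ) ^ (2 * d) := by ring
    have e2 : (t + p) ^ 2 * ((g : ℝ) ^ (2 * d) * |(y : ℝ)| ^ (2 * d)) =
        ((t + p) ^ 2 * |(y : ℝ)| ^ (2 * d)) * (g : ℝ) ^ (2 * d) := by ring
    rw [e1, e2] at h6
    exact le_of_mul_le_mul_right h6 hpos
  have h9 : |((eval ![x, y] Q : ℤ) : ℝ)| ^ 2 * |(y : ℝ)| ≤ (Λ : ℝ) ^ 2 * |(y : ℝ)| ^ (2 * d) := by
    have h10 : |((eval ![x, y] Q : ℤ) : ℝ)| ^ 2 * |(y : ℝ)| ≤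
        |((eval ![x, y] Q : ℤ) : ℝ)| ^ 2 * |(y : ℝ)| * (g : ℝ) :=
      le_mul_of_one_le_right (by positivity) hgr
    refine h10.trans (h8.trans ?_)
    apply mul_le_mul_of_nonneg_right _ (by positivity)
    apply pow_le_pow_left₀ (by linarith)
    rw [ht, hp]
    exact_mod_cast hΛ
  exact_mod_cast h9

end Run7.h197.W
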