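import Pool.Agent.Run7.h197.V.Hgt

/-!
Roots of integral polynomials which split over a number field.
-/

set_option autoImplicit false

namespace Run7.h197.W

open NumberField IsDedekindDomain Finset Height Polynomial

/-- some root is close -/
lemma near_root {L : Type} [Field L] [CharZero L] (p : ℤ[X]) (hp : p ≠ 0) (ψ : L →+* ℂ)
    (hs : (p.map (Int.castRingHom L)).Splits) (hk : 1 ≤ p.natDegree) (x : ℂ) :
    ∃ α : L, (p.map (Int.castRingHom L)).eval α = 0 ∧
      ‖x - ψ α‖ ^ p.natDegree ≤ ‖(p.map (Int.castRingHom ℂ)).eval x‖ := by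
  classical
  obtain ⟨q, hq⟩ : ∃ q : L[X], q = p.map (Int.castRingHom L) := ⟨_, rfl⟩
  rw [← hq] at hs ⊢
  have hinj : Function.Injective (Int.castRingHom L) := RingHom.injective_int _
  have hq0 : q ≠ 0 := by
    rw [hq]
    exact (Polynomial.map_ne_zero_iff hinj).2 hp
  have hdeg : q.natDegree = p.natDegree := by
    rw [hq]
    exact natDegree_map_eq_of_injective hinj p
  have hcard : q.roots.card = p.natDegree := by rw [← hdeg, hs.natDegree_eq_card_roots]
  have hne : q.roots.toFinset.Nonempty := by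
    rw [Multiset.toFinset_nonempty, ← Multiset.card_pos, hcard]
    omega
  obtain ⟨α, hα, hmin⟩ := Finset.exists_min_image q.roots.toFinset (fun a => ‖x - ψ a‖) hne
  have hα' : α ∈ q.roots := Multiset.mem_toFinset.1 hα
  refine ⟨α, (mem_roots hq0).1 hα', ?_⟩
  have e1 : p.map (Int.castRingHom ℂ) = q.map ψ := by
    rw [hq, Polynomial.map_map]
    congr 1
    exact RingHom.ext_int _ _
  have e2 : (q.map ψ).eval x = ψ q.leadingCoeff * (q.roots.map fun a => x - ψ a).prod := by
    conv_lhs => rw [hs.eq_prod_roots]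
    rw [Polynomial.map_mul, Polynomial.map_C, Polynomial.map_multiset_prod, Multiset.map_map, eval_mul, eval_C,
      eval_multiset_prod, Multiset.map_map]
    congr 2
    apply Multiset.map_congr rfl
    intro a _
    simp
  rw [e1, e2, norm_mul]
  have h1 : (1 : ℝ) ≤ ‖ψ q.leadingCoeff‖ := by
    have h2 : q.leadingCoeff = ((p.leadingCoeff : ℤ) : L) := by
      rw [hq, leadingCoeff_map_of_injective hinj]
      rfl
    rw [h2, map_intCast, Complex.norm_intCast]
    have := Int.one_le_abs (leadingCoeff_ne_zero.2 hp)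
    exact_mod_cast this
  have h3 : ∀ m : Multiset L, (∀ a ∈ m, ‖x - ψ α‖ ≤ ‖x - ψ a‖) →
      ‖x - ψ α‖ ^ m.card ≤ ‖(m.map fun a => x - ψ a).prod‖ := by
    intro m
    induction m using Multiset.induction_on with
    | empty => intro _; simp
    | cons a m ih =>
      intro h
      rw [Multiset.card_cons, Multiset.map_cons, Multiset.prod_cons, norm_mul, pow_succ, mul_comm]
      exact mul_le_mul (h a (Multiset.mem_cons_self _ _))
        (ih fun b hb => h b (Multiset.mem_cons_of_mem hb)) (by positivity) (norm_nonneg _)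
  have h4 := h3 q.roots fun a ha => hmin a (Multiset.mem_toFinset.2 ha)
  rw [hcard] at h4
  exact h4.trans (le_mul_of_one_le_left (norm_nonneg _) h1)

section
variable {L : Type} [Field L] [NumberField L]

open AdmissibleAbsValues in
lemma arch_int (v : AbsoluteValue L ℝ) (c : ℤ) : v (c : L) ≤ |(c : ℝ)| := by
  have hnat : ∀ n : ℕ, v (n : L) ≤ n := by
    intro n
    induction n with
    | zero => simp
    | succ n ih =>
      push_cast
      have h1 := v.add_le (n : L) 1
      rw [v.map_one] at h1
      linarith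
  rcases le_total 0 c with h | h
  · obtain ⟨n, rfl⟩ := Int.eq_ofNat_of_zero_le h
    have := hnat n
    simpa using this
  · obtain ⟨n, hn⟩ := Int.eq_ofNat_of_zero_le (neg_nonneg.2 h)
    have h2 : c = -(n : ℤ) := by omega
    have := hnat n
    rw [h2]
    push_cast
    rw [v.map_neg, abs_neg, Nat.abs_cast]
    exact this

lemma nonarch_int (v : AbsoluteValue L ℝ) (hv : IsNonarchimedean v) (c : ℤ) : v (c : L) ≤ 1 := by
  have hnat : ∀ n : ℕ, v (n : L) ≤ 1 := by
    intro n
    induction n with
    | zero => simp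
    | succ n ih =>
      push_cast
      have h1 := hv (n : L) 1
      rw [v.map_one] at h1
      exact h1.trans (max_le ih le_rfl)
  rcases le_total 0 c with h | h
  · obtain ⟨n, rfl⟩ := Int.eq_ofNat_of_zero_le h
    have := hnat n
    simpa using this
  · obtain ⟨n, hn⟩ := Int.eq_ofNat_of_zero_le (neg_nonneg.2 h)
    have h2 : c = -(n : ℤ) := by omega
    have := hnat n
    rw [h2]
    push_cast
    rw [v.map_neg]
    exact this

omit [NumberField L] in
lemma root_rel (p : ℤ[X]) (α : L) (hα : (p.map (Int.castRingHom L)).eval α = 0) :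
    ((p.leadingCoeff : ℤ) : L) * α ^ p.natDegree =
      -∑ i ∈ range p.natDegree, ((p.coeff i : ℤ) : L) * α ^ i := by
  have h1 : (p.map (Int.castRingHom L)).eval α =
      ∑ i ∈ range (p.natDegree + 1), ((p.coeff i : ℤ) : L) * α ^ i := by
    rw [eval_map, eval₂_eq_sum_range]
    rfl
  rw [h1, Finset.sum_range_succ] at hα
  rw [Polynomial.leadingCoeff]
  linear_combination hα

/-- the archimedean case -/
lemma arch_root (p : ℤ[X]) (hp : p ≠ 0) (Λ : ℤ)
    (hΛ : ∑ i ∈ range (p.natDegree + 1), |p.coeff i| ≤ Λ) (α : L)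
    (hα : (p.map (Int.castRingHom L)).eval α = 0) (v : AbsoluteValue L ℝ) :
    max (v α) 1 ≤ (Λ : ℝ) * max (v ((p.leadingCoeff : ℤ) : L)⁻¹) 1 := by
  have hlc : 1 ≤ |p.coeff p.natDegree| := Int.one_le_abs (leadingCoeff_ne_zero.2 hp)
  have hΛ1 : 1 ≤ Λ := by
    rw [Finset.sum_range_succ] at hΛ
    have : 0 ≤ ∑ i ∈ range p.natDegree, |p.coeff i| := Finset.sum_nonneg fun _ _ => abs_nonneg _
    omega
  have hΛR : (1 : ℝ) ≤ Λ := by exact_mod_cast hΛ1
  have hm : (1 : ℝ) ≤ max (v ((p.leadingCoeff : ℤ) : L)⁻¹) 1 := le_max_right _ _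
  rcases le_or_gt (v α) 1 with h1 | h1
  · rw [max_eq_right h1]
    nlinarith
  · rw [max_eq_left h1.le]
    have hc0 : ((p.leadingCoeff : ℤ) : L) ≠ 0 := Int.cast_ne_zero.2 (leadingCoeff_ne_zero.2 hp)
    have hvc : 0 < v ((p.leadingCoeff : ℤ) : L) := v.pos hc0
    have hk : 1 ≤ p.natDegree := by
      by_contra hcon
      have h0 : p.natDegree = 0 := by omega
      have := root_rel p α hα
      rw [h0, Finset.range_zero, Finset.sum_empty, neg_zero, pow_zero, mul_one] at this
      exact hc0 this
    have h2 := congrArg v (root_rel p α hα)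
    rw [v.map_mul, v.map_pow, v.map_neg] at h2
    have h3 : v (∑ i ∈ range p.natDegree, ((p.coeff i : ℤ) : L) * α ^ i) ≤
        Λ * v α ^ (p.natDegree - 1) := by
      calc v (∑ i ∈ range p.natDegree, ((p.coeff i : ℤ) : L) * α ^ i)
          ≤ ∑ i ∈ range p.natDegree, v (((p.coeff i : ℤ) : L) * α ^ i) := v.sum_le _ _
        _ ≤ ∑ i ∈ range p.natDegree, |(p.coeff i : ℝ)| * v α ^ (p.natDegree - 1) := by
            apply Finset.sum_le_sum
            intro i hi
            rw [v.map_mul, v.map_pow]
            apply mul_le_mul (arch_int v _) _ (by positivity) (abs_nonneg _)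
            apply pow_le_pow_right₀ h1.le
            have := Finset.mem_range.1 hi
            omega
        _ = (∑ i ∈ range p.natDegree, |(p.coeff i : ℝ)|) * v α ^ (p.natDegree - 1) := by
            rw [Finset.sum_mul]
        _ ≤ Λ * v α ^ (p.natDegree - 1) := by
            apply mul_le_mul_of_nonneg_right _ (by positivity)
            have h5 : ∑ i ∈ range p.natDegree, |p.coeff i| ≤ Λ := by
              rw [Finset.sum_range_succ] at hΛ
              omega
            exact_mod_cast h5
    have h4 : v ((p.leadingCoeff : ℤ) : L) * v α ^ p.natDegree ≤ Λ * v α ^ (p.natDegree - 1) := by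
      rw [h2]
      exact h3
    have h5 : v α ^ p.natDegree = v α ^ (p.natDegree - 1) * v α := by
      rw [← pow_succ]
      congr 1
      omega
    have h6 : 0 < v α ^ (p.natDegree - 1) := pow_pos (by linarith) _
    have h7 : v ((p.leadingCoeff : ℤ) : L) * v α ≤ Λ := by
      rw [h5] at h4
      have : (v ((p.leadingCoeff : ℤ) : L) * v α) * v α ^ (p.natDegree - 1) ≤
          Λ * v α ^ (p.natDegree - 1) := by
        calc _ = v ((p.leadingCoeff : ℤ) : L) * (v α ^ (p.natDegree - 1) * v α) := by ring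
          _ ≤ _ := h4
      exact le_of_mul_le_mul_right this h6
    calc v α ≤ Λ * v ((p.leadingCoeff : ℤ) : L)⁻¹ := by
          rw [map_inv₀, ← div_eq_mul_inv, le_div_iff₀ hvc, mul_comm]
          exact h7
      _ ≤ _ := mul_le_mul_of_nonneg_left (le_max_left _ _) (by linarith)

/-- the other case -/
lemma nonarch_root (p : ℤ[X]) (hp : p ≠ 0) (α : L)
    (hα : (p.map (Int.castRingHom L)).eval α = 0) (v : AbsoluteValue L ℝ)
    (hv : IsNonarchimedean v) :
    max (v α) 1 ≤ max (v ((p.leadingCoeff : ℤ) : L)⁻¹) 1 := by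
  rcases le_or_gt (v α) 1 with h1 | h1
  · rw [max_eq_right h1]
    exact le_max_right _ _
  · rw [max_eq_left h1.le]
    have hc0 : ((p.leadingCoeff : ℤ) : L) ≠ 0 := Int.cast_ne_zero.2 (leadingCoeff_ne_zero.2 hp)
    have hvc : 0 < v ((p.leadingCoeff : ℤ) : L) := v.pos hc0
    have hk : 1 ≤ p.natDegree := by
      by_contra hcon
      have h0 : p.natDegree = 0 := by omega
      have := root_rel p α hα
      rw [h0, Finset.range_zero, Finset.sum_empty, neg_zero, pow_zero, mul_one] at this
      exact hc0 this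
    have h2 := congrArg v (root_rel p α hα)
    rw [v.map_mul, v.map_pow, v.map_neg] at h2
    have h3 : v (∑ i ∈ range p.natDegree, ((p.coeff i : ℤ) : L) * α ^ i) ≤
        v α ^ (p.natDegree - 1) := by
      have hne : (range p.natDegree).Nonempty := Finset.nonempty_range_iff.2 (by omega)
      obtain ⟨i, hi, hle⟩ := IsNonarchimedean.finset_image_add_of_nonempty hv
        (fun i => ((p.coeff i : ℤ) : L) * α ^ i) hne
      refine hle.trans ?_
      rw [v.map_mul, v.map_pow]
      calc v ((p.coeff i : ℤ) : L) * v α ^ i ≤ 1 * v α ^ (p.natDegree - 1) := by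
            apply mul_le_mul (nonarch_int v hv _) _ (by positivity) zero_le_one
            apply pow_le_pow_right₀ h1.le
            have := Finset.mem_range.1 hi
            omega
        _ = _ := one_mul _
    have h4 : v ((p.leadingCoeff : ℤ) : L) * v α ^ p.natDegree ≤ v α ^ (p.natDegree - 1) := by
      rw [h2]
      exact h3
    have h5 : v α ^ p.natDegree = v α ^ (p.natDegree - 1) * v α := by
      rw [← pow_succ]
      congr 1
      omega
    have h6 : 0 < v α ^ (p.natDegree - 1) := pow_pos (by linarith) _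
    have h7 : v ((p.leadingCoeff : ℤ) : L) * v α ≤ 1 := by
      rw [h5] at h4
      have : (v ((p.leadingCoeff : ℤ) : L) * v α) * v α ^ (p.natDegree - 1) ≤
          1 * v α ^ (p.natDegree - 1) := by
        rw [one_mul]
        calc _ = v ((p.leadingCoeff : ℤ) : L) * (v α ^ (p.natDegree - 1) * v α) := by ring
          _ ≤ _ := h4
      exact le_of_mul_le_mul_right this h6
    calc v α ≤ v ((p.leadingCoeff : ℤ) : L)⁻¹ := by
          rw [map_inv₀, ← one_div, le_div_iff₀ hvc, mul_comm]
          exact h7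
      _ ≤ _ := le_max_left _ _

/-- the height of a root -/
lemma height_root (p : ℤ[X]) (hp : p ≠ 0) (Λ : ℤ)
    (hΛ : ∑ i ∈ range (p.natDegree + 1), |p.coeff i| ≤ Λ)
    (α : L) (hα : (p.map (Int.castRingHom L)).eval α = 0) :
    mulHeight₁ α ≤ (Λ : ℝ) ^ (2 * totalWeight L) := by
  have hlc : 1 ≤ |p.coeff p.natDegree| := Int.one_le_abs (leadingCoeff_ne_zero.2 hp)
  have hle : |p.coeff p.natDegree| ≤ Λ := by
    rw [Finset.sum_range_succ] at hΛ
    have : 0 ≤ ∑ i ∈ range p.natDegree, |p.coeff i| := Finset.sum_nonneg fun _ _ => abs_nonneg _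
    omega
  have hΛR : (1 : ℝ) ≤ Λ := by exact_mod_cast hlc.trans hle
  have h1 : mulHeight₁ α ≤ (Λ : ℝ) ^ totalWeight L * mulHeight₁ ((p.leadingCoeff : ℤ) : L)⁻¹ := by
    simp only [Height.mulHeight₁_eq, totalWeight]
    rw [← mul_assoc, ← Multiset.prod_replicate, ← Multiset.map_const, ← Multiset.prod_map_mul]
    simp only [Function.const_apply]
    gcongr
    · exact finprod_nonneg fun _ ↦ by positivity
    · exact Multiset.prod_map_nonneg fun _ h ↦ by positivity
    · exact Multiset.prod_map_le_prod_map₀ _ _ (fun _ _ ↦ by positivity) fun v _ ↦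
        arch_root p hp Λ hΛ α hα v
    · exact finprod_le_finprod (by fun_prop) (fun _ ↦ by positivity) (by fun_prop) <|
        fun v ↦ nonarch_root p hp α hα v.val (AdmissibleAbsValues.isNonarchimedean _ v.prop)
  have hleR : |((p.leadingCoeff : ℤ) : ℝ)| ≤ (Λ : ℝ) := by
    have : |p.leadingCoeff| ≤ Λ := hle
    exact_mod_cast this
  have h2 : mulHeight₁ ((p.leadingCoeff : ℤ) : L) ≤ (Λ : ℝ) ^ totalWeight L * 1 := by
    have hF : ∏ᶠ v : AdmissibleAbsValues.nonarchAbsVal (K := L),
        max (v.val ((p.leadingCoeff : ℤ) : L)) 1 = 1 :=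
      finprod_eq_one_of_forall_eq_one fun v => max_eq_right
        (nonarch_int v.val (AdmissibleAbsValues.isNonarchimedean _ v.prop) _)
    rw [Height.mulHeight₁_eq, hF, totalWeight, ← Multiset.prod_replicate, ← Multiset.map_const,
      mul_one, mul_one]
    exact Multiset.prod_map_le_prod_map₀ _ _ (fun _ _ ↦ by positivity) fun v _ ↦
        max_le ((arch_int v _).trans hleR) hΛR
  rw [mulHeight₁_inv] at h1
  rw [mul_one] at h2
  refine h1.trans ?_
  rw [two_mul, pow_add]
  exact mul_le_mul_of_nonneg_left h2 (by positivity)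

end

end Run7.h197.W
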