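import Pool.Agent.Run7.h197.ES.Line
import Pool.Agent.Run7.h197.W.Root

/-!
Binary forms with integral coefficients.
-/

set_option autoImplicit false

namespace Run7.h197.W

open Finset MvPolynomial
open Run7.h197.ES (len len_nonneg one_le_len deg_sum eval_bound)

section
variable {k : Type} [CommRing k]

/-- evaluation in a ring -/
noncomputable abbrev ev (T : MvPolynomial (Fin 2) ℤ) (x y : k) : k := aeval ![x, y] T

lemma ev_eq (T : MvPolynomial (Fin 2) ℤ) (x y : k) :
    ev T x y = ∑ d ∈ T.support, ((T.coeff d : ℤ) : k) * (x ^ d 0 * y ^ d 1) := by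
  unfold ev
  rw [aeval_def, eval₂_eq']
  apply Finset.sum_congr rfl
  intro d _
  rw [Fin.prod_univ_two]
  simp

lemma ev_cast (T : MvPolynomial (Fin 2) ℤ) (x y : ℤ) :
    ((eval ![x, y] T : ℤ) : k) = ev T (x : k) (y : k) := by
  rw [ev_eq, eval_eq']
  push_cast
  apply Finset.sum_congr rfl
  intro d _
  rw [Fin.prod_univ_two]
  simp

lemma ev_hom {T : MvPolynomial (Fin 2) ℤ} {e : ℕ} (hT : T.IsHomogeneous e) (r x y : k) :
    ev T (r * x) (r * y) = r ^ e * ev T x y := by
  rw [ev_eq, ev_eq, Finset.mul_sum]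
  apply Finset.sum_congr rfl
  intro d hd
  have h2 : d 0 + d 1 = e := by
    have h3 := hT (mem_support_iff.1 hd)
    rw [← h3, Finsupp.weight_apply, Finsupp.sum_fintype _ _ (fun i => by simp), Fin.sum_univ_two]
    simp
  rw [mul_pow, mul_pow, ← h2, pow_add]
  ring

/-- the polynomial `T(X, 1)` -/
noncomputable def deh (T : MvPolynomial (Fin 2) ℤ) : Polynomial ℤ :=
  ∑ d ∈ T.support, Polynomial.C (T.coeff d) * Polynomial.X ^ (d 0)

lemma deh_eval (T : MvPolynomial (Fin 2) ℤ) (t : k) :
    ((deh T).map (Int.castRingHom k)).eval t = ev T t 1 := by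
  unfold deh
  rw [Polynomial.map_sum, Polynomial.eval_finsetSum, ev_eq]
  apply Finset.sum_congr rfl
  intro d _
  simp

lemma deh_natDegree_le {T : MvPolynomial (Fin 2) ℤ} {e : ℕ} (hT : T.totalDegree ≤ e) :
    (deh T).natDegree ≤ e := by
  unfold deh
  apply Polynomial.natDegree_sum_le_of_forall_le
  intro d hd
  refine (Polynomial.natDegree_C_mul_X_pow_le _ _).trans ?_
  have := deg_sum hd hT
  omega

lemma deh_sum (T : MvPolynomial (Fin 2) ℤ) (m : ℕ) :
    ∑ i ∈ range m, |(deh T).coeff i| ≤ len T := by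
  calc ∑ i ∈ range m, |(deh T).coeff i| ≤
        ∑ i ∈ range m, ∑ d ∈ T.support, if i = d 0 then |T.coeff d| else 0 := by
        apply Finset.sum_le_sum
        intro i _
        unfold deh
        rw [Polynomial.finsetSum_coeff]
        refine (Finset.abs_sum_le_sum_abs _ _).trans (Finset.sum_le_sum fun d _ => ?_)
        rw [Polynomial.coeff_C_mul, Polynomial.coeff_X_pow]
        split_ifs <;> simp
    _ = ∑ d ∈ T.support, ∑ i ∈ range m, if i = d 0 then |T.coeff d| else 0 := Finset.sum_comm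
    _ ≤ len T := by
        unfold len
        apply Finset.sum_le_sum
        intro d _
        rw [Finset.sum_ite_eq']
        split_ifs
        · exact le_rfl
        · exact abs_nonneg _

lemma deh_top {T : MvPolynomial (Fin 2) ℤ} {e : ℕ} (hT : T.IsHomogeneous e) :
    (deh T).coeff e = eval ![1, 0] T := by
  unfold deh
  rw [Polynomial.finsetSum_coeff, eval_eq']
  apply Finset.sum_congr rfl
  intro d hd
  have h2 : d 0 + d 1 = e := by
    have h3 := hT (mem_support_iff.1 hd)
    rw [← h3, Finsupp.weight_apply, Finsupp.sum_fintype _ _ (fun i => by simp), Fin.sum_univ_two]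
    simp
  rw [Polynomial.coeff_C_mul, Polynomial.coeff_X_pow, Fin.prod_univ_two]
  simp only [Matrix.cons_val_zero, Matrix.cons_val_one, one_pow, one_mul]
  by_cases h : d 1 = 0
  · rw [if_pos (by omega), h, pow_zero]
  · rw [if_neg (by omega), zero_pow h]

lemma deh_ne {T : MvPolynomial (Fin 2) ℤ} {e : ℕ} (hT : T.IsHomogeneous e) (hT0 : T ≠ 0) :
    deh T ≠ 0 := by
  intro h
  apply hT0
  have h1 : ∀ x y : ℤ, y ≠ 0 → eval ![x, y] T = 0 := by
    intro x y hy
    have hyQ : (y : ℚ) ≠ 0 := Int.cast_ne_zero.2 hy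
    have h2 := ev_hom hT (y : ℚ) ((x : ℚ) / y) 1
    rw [mul_one, mul_div_cancel₀ _ hyQ, ← ev_cast, ← deh_eval, h, Polynomial.map_zero,
      Polynomial.eval_zero, mul_zero] at h2
    exact_mod_cast h2
  have h3 : X 1 * T = 0 := by
    apply MvPolynomial.funext
    intro v
    have hv : v = ![v 0, v 1] := by
      funext i
      fin_cases i <;> rfl
    rw [map_mul, eval_X, map_zero]
    by_cases h4 : v 1 = 0
    · rw [h4, zero_mul]
    · rw [hv, h1 _ _ h4, mul_zero]
  rcases mul_eq_zero.1 h3 with h4 | h4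
  · exact absurd h4 (X_ne_zero _)
  · exact h4

lemma exists_c {p : Polynomial ℤ} (hp : p ≠ 0) : ∃ c : ℤ, p.eval c ≠ 0 := by
  by_contra hcon
  push Not at hcon
  exact hp (Polynomial.funext fun c => by rw [hcon, Polynomial.eval_zero])

lemma ev_eval (T : MvPolynomial (Fin 2) ℤ) (x y : ℤ) : ev T x y = eval ![x, y] T := by
  rw [← Int.cast_id (n := eval ![x, y] T), ev_cast]
  simp

end

end Run7.h197.W
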