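import Pool.Agent.Run7.h197.W.Form
import Pool.Agent.Run7.h197.V.Ext

/-!
The orders of the poles for `T(x, y) = C₁ C₂ z ^ n`.
-/

set_option autoImplicit false

namespace Run7.h197.W

open NumberField IsDedekindDomain Finset Pool.Agent.H691R3 Pool.Agent.Y673.Loc Pool.Agent.Y673.Cnt
open Run7.h197.ST Height Run7.h197.Q Pool.Agent.Y673.Loc.ZV
open Pool.Agent.K4H56.IF Run7.h197.FMS Run7.h197.N Run7.h197.V
open MvPolynomial (eval IsHomogeneous)

section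
variable {K : Type} [Field K] [NumberField K]

lemma val_int_nonneg (v : HeightOneSpectrum (𝓞 K)) (z : ℤ) : 0 ≤ (adv K v).v (z : K) := by
  by_cases hz : z = 0
  · rw [hz, Int.cast_zero, adv_zero]
  have h := adv_nonneg (K := K) v (z : 𝓞 K) (Int.cast_ne_zero.2 hz)
  rwa [map_intCast] at h

lemma val_int_ne_iff (v : HeightOneSpectrum (𝓞 K)) {z : ℤ} (hz : z ≠ 0) :
    (adv K v).v (z : K) ≠ 0 ↔ (z : 𝓞 K) ∈ v.asIdeal := by
  have h0 := val_int_nonneg v z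
  have h2 := le_adv_iff K v (z : 𝓞 K) (Int.cast_ne_zero.2 hz) 1
  rw [map_intCast, pow_one] at h2
  rw [← h2]
  push_cast
  omega

lemma val_natAbs (v : HeightOneSpectrum (𝓞 K)) (z : ℤ) :
    (adv K v).v ((z.natAbs : ℕ) : K) = (adv K v).v (z : K) := by
  rcases Int.natAbs_eq z with h | h
  · conv_rhs => rw [h]
    rw [Int.cast_natCast]
  · conv_rhs => rw [h]
    rw [Int.cast_neg, Int.cast_natCast]
    show -WithZero.log (v.valuation K _) = -WithZero.log (v.valuation K _)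
    rw [Valuation.map_neg]

/-- the radical -/
def rad (z : ℤ) : ℕ := ∏ p ∈ z.natAbs.primeFactors, p

lemma rad_ne (z : ℤ) : rad z ≠ 0 :=
  Finset.prod_ne_zero_iff.2 fun p hp => (Nat.prime_of_mem_primeFactors hp).ne_zero

lemma rad_primeFactors (z : ℤ) : (rad z).primeFactors = z.natAbs.primeFactors :=
  Nat.primeFactors_prod fun p hp => Nat.prime_of_mem_primeFactors hp

lemma val_of_rad (v : HeightOneSpectrum (𝓞 K)) {z : ℤ} (hz : z ≠ 0)
    (h : (adv K v).v (rad z : K) = 0) : (adv K v).v (z : K) = 0 := by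
  by_contra hcon
  rw [← Ne, val_int_ne_iff v hz] at hcon
  have h1 : ((z.natAbs : ℕ) : 𝓞 K) ∈ v.asIdeal := by
    rcases Int.natAbs_eq z with h | h
    · rw [h, Int.cast_natCast] at hcon
      exact hcon
    · rw [h, Int.cast_neg, Int.cast_natCast, neg_mem_iff] at hcon
      exact hcon
  have hz' : z.natAbs ≠ 0 := Int.natAbs_ne_zero.2 hz
  -- a prime factor lies in the ideal
  have h2 : ∃ p ∈ z.natAbs.primeFactors, ((p : ℕ) : 𝓞 K) ∈ v.asIdeal := by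
    have key : ∀ n : ℕ, n ≠ 0 → ((n : ℕ) : 𝓞 K) ∈ v.asIdeal →
        ∃ p ∈ n.primeFactors, ((p : ℕ) : 𝓞 K) ∈ v.asIdeal := by
      intro n
      induction n using Nat.recOnMul with
      | zero => intro h; exact absurd rfl h
      | one =>
        intro _ h
        rw [Nat.cast_one] at h
        exact absurd ((Ideal.eq_top_iff_one _).2 h) v.isPrime.ne_top
      | prime p hp =>
        intro _ h
        exact ⟨p, by rw [Nat.mem_primeFactors]; exact ⟨hp, dvd_rfl, hp.ne_zero⟩, h⟩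
      | mul a b ha hb =>
        intro h0 h
        rw [Nat.cast_mul] at h
        have ha0 : a ≠ 0 := left_ne_zero_of_mul h0
        have hb0 : b ≠ 0 := right_ne_zero_of_mul h0
        rcases v.isPrime.mem_or_mem h with h | h
        · obtain ⟨p, h1, h2⟩ := ha ha0 h
          exact ⟨p, Nat.primeFactors_mono (dvd_mul_right _ _) h0 h1, h2⟩
        · obtain ⟨p, h1, h2⟩ := hb hb0 h
          exact ⟨p, Nat.primeFactors_mono (dvd_mul_left _ _) h0 h1, h2⟩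
    exact key _ hz' h1
  obtain ⟨p, hp, hpv⟩ := h2
  have h3 : ((rad z : ℕ) : 𝓞 K) ∈ v.asIdeal := by
    have : p ∣ rad z := Finset.dvd_prod_of_mem _ hp
    obtain ⟨k, hk⟩ := this
    rw [hk, Nat.cast_mul]
    exact Ideal.mul_mem_right _ _ hpv
  rw [← val_nat_pos_iff v (rad_ne z)] at h3
  exact h3 h

end

open Polynomial in
/-- **the poles** -/
lemma poleV_of {T : MvPolynomial (Fin 2) ℤ} {e : ℕ} (hT : T.IsHomogeneous e) (he : 1 ≤ e)
    (c : ℤ) (hc : (deh T).eval c ≠ 0) (n : ℕ) (C₁ C₂ z : ℤ) (N : ℕ) (hC₁ : C₁ ≠ 0) (hC₂ : C₂ ≠ 0)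
    (hN : ∀ v : HeightOneSpectrum (𝓞 ℚ), (adv ℚ v).v (N : ℚ) = 0 → (adv ℚ v).v (C₂ : ℚ) = 0)
    (x y g : ℤ) (hy : y ≠ 0) (hcop : IsCoprime x y) (hg : g ≠ 0) (hTxy : eval ![x, y] T ≠ 0)
    (heq : g ^ e * eval ![x, y] T = C₁ * C₂ * z ^ n)
    (hgz : ∀ v : HeightOneSpectrum (𝓞 ℚ), (adv ℚ v).v (N : ℚ) = 0 → (g : 𝓞 ℚ) ∈ v.asIdeal →
      (z : 𝓞 ℚ) ∉ v.asIdeal) :
    PoleV {v : HeightOneSpectrum (𝓞 ℚ) | (adv ℚ v).v (((deh T).eval c : ℤ) : ℚ) ≠ 0} n C₁.natAbs N 1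
      (((X - C (c : ℚ)) ^ e : ℚ[X]).eval ((x : ℚ) / y) /
        ((deh T).map (Int.castRingHom ℚ)).eval ((x : ℚ) / y)) := by
  intro v hvS hvN hneg
  simp only [Set.mem_ofPred_eq, not_not] at hvS
  have hyQ : (y : ℚ) ≠ 0 := Int.cast_ne_zero.2 hy
  have e1 : ((deh T).map (Int.castRingHom ℚ)).eval ((x : ℚ) / y) * (y : ℚ) ^ e =
      ((eval ![x, y] T : ℤ) : ℚ) := by
    have h1 := ev_hom hT (y : ℚ) ((x : ℚ) / y) 1
    rw [mul_one, mul_div_cancel₀ _ hyQ] at h1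
    rw [deh_eval, ev_cast, h1]
    ring
  have e2 : ((X - C (c : ℚ)) ^ e : ℚ[X]).eval ((x : ℚ) / y) * (y : ℚ) ^ e =
      (((x - c * y) ^ e : ℤ) : ℚ) := by
    rw [eval_pow, eval_sub, eval_X, eval_C, ← mul_pow]
    push_cast
    congr 1
    field_simp
  have hTQ : ((eval ![x, y] T : ℤ) : ℚ) ≠ 0 := Int.cast_ne_zero.2 hTxy
  have e3 : ((X - C (c : ℚ)) ^ e : ℚ[X]).eval ((x : ℚ) / y) /
      ((deh T).map (Int.castRingHom ℚ)).eval ((x : ℚ) / y) =
      (((x - c * y) ^ e : ℤ) : ℚ) / ((eval ![x, y] T : ℤ) : ℚ) := by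
    rw [← e1, ← e2, mul_div_mul_right _ _ (pow_ne_zero _ hyQ)]
  rw [e3] at hneg ⊢
  have hxc : x - c * y ≠ 0 := by
    intro h0
    rw [h0, zero_pow (by omega), Int.cast_zero, zero_div, adv_zero] at hneg
    exact absurd hneg (lt_irrefl _)
  have hxcQ : ((x - c * y : ℤ) : ℚ) ≠ 0 := Int.cast_ne_zero.2 hxc
  have v1 : (adv ℚ v).v ((((x - c * y) ^ e : ℤ) : ℚ) / ((eval ![x, y] T : ℤ) : ℚ)) =
      e * (adv ℚ v).v ((x - c * y : ℤ) : ℚ) - (adv ℚ v).v ((eval ![x, y] T : ℤ) : ℚ) := by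
    rw [Int.cast_pow, ((((E_of_ne (w := adv ℚ v) hxcQ).pow e).div (E_of_ne hTQ)).2)]
  rw [v1] at hneg ⊢
  have hn1 := val_int_nonneg (K := ℚ) v (x - c * y)
  have hn2 := val_int_nonneg (K := ℚ) v (eval ![x, y] T)
  have hTpos : (adv ℚ v).v ((eval ![x, y] T : ℤ) : ℚ) ≠ 0 := by
    intro h0
    rw [h0] at hneg
    nlinarith
  have hTmem := (val_int_ne_iff v hTxy).1 hTpos
  -- the first term
  have h0 : (adv ℚ v).v ((x - c * y : ℤ) : ℚ) = 0 := by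
    by_contra hcon
    have hm1 := (val_int_ne_iff v hxc).1 hcon
    -- compute in the residue ring
    have k1 : (Ideal.Quotient.mk v.asIdeal) ((x : ℤ) : 𝓞 ℚ) =
        (Ideal.Quotient.mk v.asIdeal) ((c : ℤ) : 𝓞 ℚ) * (Ideal.Quotient.mk v.asIdeal) ((y : ℤ) : 𝓞 ℚ) := by
      rw [← map_mul, Ideal.Quotient.eq]
      push_cast at hm1
      exact hm1
    have k2 : ((eval ![x, y] T : ℤ) : 𝓞 ℚ ⧸ v.asIdeal) = 0 := by
      have : (Ideal.Quotient.mk v.asIdeal) ((eval ![x, y] T : ℤ) : 𝓞 ℚ) = 0 :=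
        Ideal.Quotient.eq_zero_iff_mem.2 hTmem
      rwa [map_intCast] at this
    rw [map_intCast, map_intCast, map_intCast] at k1
    rw [ev_cast, k1] at k2
    have k3 := ev_hom hT ((y : ℤ) : 𝓞 ℚ ⧸ v.asIdeal) ((c : ℤ) : 𝓞 ℚ ⧸ v.asIdeal) 1
    rw [mul_one, mul_comm ((y : ℤ) : 𝓞 ℚ ⧸ v.asIdeal), k2] at k3
    have k4 : ev T ((c : ℤ) : 𝓞 ℚ ⧸ v.asIdeal) 1 = (((deh T).eval c : ℤ) : 𝓞 ℚ ⧸ v.asIdeal) := by
      rw [← deh_eval, eval_intCast_map]
      simp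
    have hdom : IsDomain (𝓞 ℚ ⧸ v.asIdeal) := by
      have := v.isPrime
      infer_instance
    rcases mul_eq_zero.1 k3.symm with k5 | k5
    · have k6 : ((y : ℤ) : 𝓞 ℚ ⧸ v.asIdeal) = 0 := by
        by_contra hne
        exact (pow_ne_zero e hne) k5
      rw [k6, mul_zero] at k1
      obtain ⟨a, b, hab⟩ := hcop
      have k7 := congrArg (fun z : ℤ => (z : 𝓞 ℚ ⧸ v.asIdeal)) hab
      simp only [Int.cast_add, Int.cast_mul, k1, k6, mul_zero, add_zero, Int.cast_one] at k7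
      exact one_ne_zero k7.symm
    · rw [k4] at k5
      have k6 : (((deh T).eval c : ℤ) : 𝓞 ℚ) ∈ v.asIdeal := by
        rw [← Ideal.Quotient.eq_zero_iff_mem, map_intCast]
        exact k5
      exact (val_int_ne_iff v hc).2 k6 hvS
  rw [h0, mul_zero, zero_sub, Nat.cast_one, one_mul]
  -- the equation
  have hz0 : z ≠ 0 ∨ n = 0 := by
    by_cases hn : n = 0
    · exact Or.inr hn
    · left
      rintro rfl
      rw [zero_pow hn, mul_zero] at heq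
      exact (mul_ne_zero (pow_ne_zero _ hg) hTxy) heq
  have hgQ : (g : ℚ) ≠ 0 := Int.cast_ne_zero.2 hg
  have hC₁Q : (C₁ : ℚ) ≠ 0 := Int.cast_ne_zero.2 hC₁
  have hC₂Q : (C₂ : ℚ) ≠ 0 := Int.cast_ne_zero.2 hC₂
  have hval : (e : ℤ) * (adv ℚ v).v (g : ℚ) + (adv ℚ v).v ((eval ![x, y] T : ℤ) : ℚ) =
      (adv ℚ v).v (C₁ : ℚ) + n * (adv ℚ v).v (z : ℚ) := by
    have h1 : (g : ℚ) ^ e * ((eval ![x, y] T : ℤ) : ℚ) = (C₁ : ℚ) * C₂ * (z : ℚ) ^ n := by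
      exact_mod_cast heq
    have h2 := congrArg (adv ℚ v).v h1
    rw [((((E_of_ne (w := adv ℚ v) hgQ).pow e).mul (E_of_ne hTQ)).2)] at h2
    rw [h2]
    rcases hz0 with hz | hn
    · have hzQ : (z : ℚ) ≠ 0 := Int.cast_ne_zero.2 hz
      rw [((((E_of_ne (w := adv ℚ v) hC₁Q).mul (E_of_ne hC₂Q)).mul ((E_of_ne hzQ).pow n)).2),
        hN v hvN, add_zero]
    · rw [hn, pow_zero, mul_one, ((((E_of_ne (w := adv ℚ v) hC₁Q).mul (E_of_ne hC₂Q))).2),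
        hN v hvN, add_zero]
      simp
  have hC₁n := val_int_nonneg (K := ℚ) v C₁
  have hgn := val_int_nonneg (K := ℚ) v g
  rw [val_natAbs]
  by_cases hgv : (adv ℚ v).v (g : ℚ) = 0
  · refine ⟨(adv ℚ v).v (C₁ : ℚ), by rw [abs_of_nonneg hC₁n], ?_⟩
    rw [hgv, mul_zero, zero_add] at hval
    rw [hval]
    exact ⟨-(adv ℚ v).v (z : ℚ), by ring⟩
  · have hgm := (val_int_ne_iff v hg).1 hgv
    have hzm := hgz v hvN hgm
    have hzv : (adv ℚ v).v (z : ℚ) = 0 := by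
      by_cases hz : z = 0
      · rw [hz, Int.cast_zero, adv_zero]
      · by_contra hcon
        exact hzm ((val_int_ne_iff v hz).1 hcon)
    rw [hzv, mul_zero, add_zero] at hval
    refine ⟨(adv ℚ v).v ((eval ![x, y] T : ℤ) : ℚ), ?_, ?_⟩
    · rw [abs_of_nonneg hn2]
      have : 0 ≤ (e : ℤ) * (adv ℚ v).v (g : ℚ) := by positivity
      omega
    · rw [neg_add_cancel]
      exact dvd_zero _

end Run7.h197.W
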